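import Pool.Agent.Results.MP_1ef7cf_nt.LargerModuli

/-!
# Stark's conjecture for real quadratic ray class fields: from larger moduli to smaller ones

`K` is a real quadratic field with real embeddings `σ₁ ≠ σ₂`. A datum (structure `Datum`) consists of an ideal `𝔪 ≠ (0), (1)`, a class
map `c` modulo `𝔪∞₂` with values in a finite abelian group `G`, the partial zeta functions `ζ(s, A)`, `A ∈ G`, and a Galois extension
`H/K` with group `G` (`art : G ≅ Gal(H/K)`) and a real embedding `τ` above `σ₁`, such that the class of `(y)`, `y ≡ 1` modulo `𝔪`,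
`σ₂(y) < 0`, acts as the complex conjugation above `σ₂`: for example the ray class group and the ray class field modulo `𝔪∞₂`. Q1 for
the datum (`Stark`): there are units `ε_A` of `H` with 1. `τ(ε_A) = exp(-2ζ'(0, A))`, 2. `art(B) ε_A = ε_{AB}`,
3. absolute value `1` in all the embeddings above `σ₂`.

Let `v ∤ 𝔪` be a prime and consider a datum for `𝔪 v` with `H ⊆ H'` (structure `Layer`).

1. If Q1 is true for `𝔪 v`, then the quotients `exp(-2ζ'(0, A)) / exp(-2ζ'(0, A c(v)⁻¹))` are the values of units of `H` with the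
   properties 2 and 3.
2. If Q1 is true for `𝔪 v` and `v` is in the sign class (the class of the `(y)`, `y ≡ 1` modulo `𝔪`, `σ₂(y) < 0`), then the squares
   `exp(-2ζ'(0, A))²` are the values of units of `H` with the properties 2 and 3. If moreover the number `exp(-2ζ'(0, 1))` is in
   `τ(H)`, then Q1 is true for `𝔪` up to signs: `± exp(-2ζ'(0, A))`.
3. If for all classes `g, h ∈ G` there are primes `v₁`, `v₂` of these classes and data for `𝔪 v₁`, `𝔪 v₂`, `𝔪 v₁ v₂` (structure `Square`) for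
   which Q1 and the square root condition of Tate are true (`Datum.StarkTate`), then Q1 is true for `𝔪`.

So if Q1 is true for some `𝔪 v` for each class, all the numbers `exp(-2ζ'(0, A))` for `𝔪` are in one extension of degree at most `2` of
`H`; if this is false for `𝔪`, then Q1 is false for all the larger moduli `𝔪 v` with `v` in a certain class.
-/

set_option autoImplicit false
set_option linter.unusedSectionVars false

open Filter Topology
open IsDedekindDomain NumberField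

namespace Pool.Agent.Results.MP_343f43_nt.LargerModuli

open Pool.Agent.Results.MP_1ef7cf_nt.LargerModuli

section defs

/-- The units `ε A` of `H` have the values `x A`, they are permuted by the Galois group (property 2 of Q1) and have absolute value
`1` in the embeddings above `σ₂` (property 3). -/
structure IsFamily {K : Type} [Field K] [NumberField K] {G : Type} [CommGroup G] {H : Type} [Field H]
    [NumberField H] [Algebra K H] (σ₂ : K →+* ℝ) (x : G → ℂ) (art : G ≃* Gal(H/K)) (τ : H →+* ℝ)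
    (ε : G → (𝓞 H)ˣ) : Prop where
  eq : ∀ A, ((τ ((ε A : 𝓞 H) : H) : ℝ) : ℂ) = x A
  galois : ∀ A B, art B ((ε A : 𝓞 H) : H) = ((ε (A * B) : 𝓞 H) : H)
  circle : ∀ φ : H →+* ℂ, φ.comp (algebraMap K H) = Complex.ofRealHom.comp σ₂ → ∀ A, ‖φ ((ε A : 𝓞 H) : H)‖ = 1

variable {K : Type} [Field K] [NumberField K] {σ₁ σ₂ : K →+* ℝ}

/-- The numbers `x A` are the values of units of `H` with the properties 2 and 3. -/
def HasFamily (D : Datum K σ₁ σ₂) (x : D.G → ℂ) : Prop :=
  ∃ ε : D.G → (𝓞 D.H)ˣ, IsFamily σ₂ x D.art D.τ ε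

/-- The number `exp(-2ζ'(0, A))`. -/
noncomputable def starkNumber (D : Datum K σ₁ σ₂) (A : D.G) : ℂ := Complex.exp (-2 * deriv (D.Z A) 0)

/-- The number `exp(-2ζ'(0, A)) / exp(-2ζ'(0, A g⁻¹))`. -/
noncomputable def quotient (D : Datum K σ₁ σ₂) (g A : D.G) : ℂ := starkNumber D A / starkNumber D (A * g⁻¹)

/-- Q1 for the modulus `𝔪`. -/
def Stark (D : Datum K σ₁ σ₂) : Prop := HasFamily D (starkNumber D)

/-- Q1 for the modulus `𝔪` up to signs: the values are `± exp(-2ζ'(0, A))`. -/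
def StarkUpToSigns (D : Datum K σ₁ σ₂) : Prop :=
  ∃ s : D.G → ℂ, (∀ A, s A = 1 ∨ s A = -1) ∧ HasFamily D (fun A => s A * starkNumber D A)

/-- The number `exp(-2ζ'(0, 1))` is in `τ(H)`. -/
def ValueInField (D : Datum K σ₁ σ₂) : Prop := ∃ x : D.H, ((D.τ x : ℝ) : ℂ) = starkNumber D 1

/-- `g` is the class of `(y)` for some `y ≡ 1` modulo `𝔪` with `σ₂(y) < 0`. -/
def IsSignClass {G : Type} (𝔪 : Ideal (𝓞 K)) (σ₂ : K →+* ℝ) (c : Ideal (𝓞 K) → G) (g : G) : Prop :=
  ∃ y : 𝓞 K, y ≠ 0 ∧ y - 1 ∈ 𝔪 ∧ σ₂ (y : K) < 0 ∧ g = c (Ideal.span {y})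

/-- The class of the prime `v`. -/
def primeClass {D D' : Datum K σ₁ σ₂} (L : Layer D D') : D.G := D.c L.v.asIdeal

/-- For all classes `g, h` there are primes `v₁, v₂` of these classes and data for `𝔪 v₁`, `𝔪 v₂`, `𝔪 v₁ v₂` for which Q1 and the square
root condition are true. -/
def LargerStarkTate (D : Datum K σ₁ σ₂) : Prop :=
  ∀ g h : D.G, ∃ (D₁ D₂ D₁₂ : Datum K σ₁ σ₂) (S : Square D D₁ D₂ D₁₂),
    primeClass S.L₁ = g ∧ primeClass S.L₂ = h ∧ D₁.StarkTate ∧ D₂.StarkTate ∧ D₁₂.StarkTate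

end defs

section aux
open Pool.Agent.X287.ST

variable {K : Type} [Field K] [NumberField K] {σ₁ σ₂ : K →+* ℝ} (hσ : σ₁ ≠ σ₂)
include hσ

theorem exp_dd (D : Datum K σ₁ σ₂) (A : D.G) :
    starkNumber D A = ((Real.exp (-2 * dd D A) : ℝ) : ℂ) := by
  unfold starkNumber
  rw [(dd_eq hσ D).2]
  push_cast
  rfl

theorem family_of (D : Datum K σ₁ σ₂) (w : (𝓞 D.H)ˣ) (x : D.G → ℂ)
    (hval : ∀ A, ((D.τ (D.art A ((w : 𝓞 D.H) : D.H)) : ℝ) : ℂ) = x A)
    (hc : ∀ φ : D.H →+* ℂ, φ.comp (algebraMap K D.H) = Complex.ofRealHom.comp σ₂ → ‖φ ((w : 𝓞 D.H) : D.H)‖ = 1) :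
    HasFamily D x := by
  refine ⟨fun A => Units.map (RingOfIntegers.mapRingHom ((D.art A : D.H ≃ₐ[K] D.H) : D.H →+* D.H) : 𝓞 D.H →* 𝓞 D.H) w,
    fun A => ?_, fun A B => ?_, fun φ hφ A => ?_⟩
  · exact hval A
  · show D.art B (D.art A ((w : 𝓞 D.H) : D.H)) = D.art (A * B) ((w : 𝓞 D.H) : D.H)
    rw [mul_comm, map_mul]
    rfl
  · show ‖φ (D.art A ((w : 𝓞 D.H) : D.H))‖ = 1
    refine hc (φ.comp ((D.art A : D.H ≃ₐ[K] D.H) : D.H →+* D.H)) ?_
    rw [← hφ]
    ext a
    simp

/-- **one prime**, without the square root condition -/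
theorem layer_step' (hK : Module.finrank ℚ K = 2) {D D' : Datum K σ₁ σ₂} (L : Layer D D') (h : Stark D') :
    ∃ w : (𝓞 D.H)ˣ,
      (∀ A, D.τ (D.art A ((w : 𝓞 D.H) : D.H)) = Real.exp (-2 * (dd D A - dd D (A * (D.c L.v.asIdeal)⁻¹)))) ∧
      ∀ φ : D.H →+* ℂ, φ.comp (algebraMap K D.H) = Complex.ofRealHom.comp σ₂ → ‖φ ((w : 𝓞 D.H) : D.H)‖ = 1 := by
  classical
  obtain ⟨ε, hε⟩ := h
  have hval : ∀ A, D'.τ (D'.art A ((ε 1 : 𝓞 D'.H) : D'.H)) = Real.exp (-2 * dd D' A) := by
    intro A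
    have h1 := hε.eq A
    rw [exp_dd hσ] at h1
    rw [hε.galois, one_mul]
    exact Complex.ofReal_injective h1
  have hcirc0 : ∀ φ : D'.H →+* ℂ, φ.comp (algebraMap K D'.H) = Complex.ofRealHom.comp σ₂ →
      ‖φ ((ε 1 : 𝓞 D'.H) : D'.H)‖ = 1 := fun φ hφ => hε.circle φ hφ 1
  let _ : Algebra D.H D'.H := L.incl.toRingHom.toAlgebra
  have _ : IsScalarTower K D.H D'.H := IsScalarTower.of_algebraMap_eq' (L.incl.comp_algebraMap.symm)
  have hmap : ∀ x, algebraMap D.H D'.H x = L.incl x := fun _ => rfl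
  have hcirc := (circ_quad hσ hK ((ε 1 : 𝓞 D'.H) : D'.H)).2 hcirc0
  obtain ⟨w, hw1, hw2, -⟩ := norm_unit (τ := Complex.ofRealHom.comp D.τ) (τ' := Complex.ofRealHom.comp D'.τ) D.art
    D'.art L.surjective L.restrict (by
      ext x
      show ((D'.τ (L.incl x) : ℝ) : ℂ) = (D.τ x : ℂ)
      rw [L.above]) (ε 1) hcirc
  refine ⟨w, fun A => ?_, (circ_quad hσ hK _).1 hw2⟩
  have hZ : IsPZ D.𝔪 D.c D.Z := ⟨D.isPartialZeta.sum, D.isPartialZeta.analytic, D.isPartialZeta.mero⟩
  have hZ' : IsPZ (D.𝔪 * L.v.asIdeal) D'.c D'.Z := by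
    rw [← L.modulus]
    exact ⟨D'.isPartialZeta.sum, D'.isPartialZeta.analytic, D'.isPartialZeta.mero⟩
  have hc' : Pool.Agent.X287.ST.IsClassMap (D.𝔪 * L.v.asIdeal) D'.c := by
    rw [← L.modulus]
    exact (classR hσ D').toClass
  have hsum := euler_deriv D.ne_top (classR hσ D).toClass hZ (dd_eq hσ D).1 L.prime hc' L.π
    (fun I hI => L.classes I (by rw [L.modulus]; exact hI)) hZ' A
  have hsum2 : ∑ g' ∈ Finset.univ.filter (fun g' => L.π g' = A), dd D' g' =
      dd D A - dd D (A * (D.c L.v.asIdeal)⁻¹) := by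
    have h2 := congrArg Complex.re hsum
    rw [Complex.re_sum, Complex.sub_re] at h2
    exact h2
  obtain ⟨g₀, rfl⟩ := L.surjective A
  have h3 : D.τ (D.art (L.π g₀) ((w : 𝓞 D.H) : D.H)) =
      D'.τ (D'.art g₀ (nrm D'.art L.π ((ε 1 : 𝓞 D'.H) : D'.H))) := by
    rw [← hw1, hmap, L.restrict, L.above]
  rw [h3, art_nrm, map_prod, Finset.prod_congr rfl fun g' _ => hval g', ← Real.exp_sum, ← Finset.mul_sum, hsum2]

end aux

open Pool.Agent.X287.ST in
/-- **Stark's conjecture for real quadratic fields: from larger moduli to smaller ones.** -/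
theorem result (K : Type) [Field K] [NumberField K] (hK : Module.finrank ℚ K = 2) (σ₁ σ₂ : K →+* ℝ)
    (hσ : σ₁ ≠ σ₂) (D : Datum K σ₁ σ₂) :
    -- 1. one prime
    (∀ (D' : Datum K σ₁ σ₂) (L : Layer D D'), Stark D' → HasFamily D (quotient D (primeClass L))) ∧
    -- 2. one prime in the sign class
    (∀ (D' : Datum K σ₁ σ₂) (L : Layer D D'), Stark D' → IsSignClass D.𝔪 σ₂ D.c (primeClass L) →
      HasFamily D (fun A => starkNumber D A ^ 2) ∧ (ValueInField D → StarkUpToSigns D)) ∧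
    -- 3. the three larger moduli, with the square root condition
    (LargerStarkTate D → Stark D) := by
  classical
  have hZ : IsPZ D.𝔪 D.c D.Z := ⟨D.isPartialZeta.sum, D.isPartialZeta.analytic, D.isPartialZeta.mero⟩
  refine ⟨fun D' L h => ?_, fun D' L h ⟨y, hy0, hy1, hy2, hcl⟩ => ?_, fun h => ?_⟩
  · obtain ⟨w, hw1, hw2⟩ := layer_step' hσ hK L h
    refine family_of hσ D w _ (fun A => ?_) hw2
    unfold quotient primeClass
    rw [hw1, exp_dd hσ, exp_dd hσ, ← Complex.ofReal_div, ← Real.exp_sub]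
    congr 2
    ring
  · obtain ⟨w, hw1, hw2⟩ := layer_step' hσ hK L h
    unfold primeClass at hcl
    obtain ⟨hρ2, hsign⟩ := quad_sign hK hσ D.ne_bot D.ne_top (classR hσ D) hZ hy0 hy1 hy2
    rw [hcl] at hw1
    set ρ : D.G := D.c (Ideal.span {y}) with hρ
    have hρinv : ρ⁻¹ = ρ := by
      rw [inv_eq_iff_mul_eq_one]
      exact hρ2
    have hdρ : ∀ A, dd D (A * ρ) = -dd D A := by
      intro A
      have h1 := hsign A
      rw [(dd_eq hσ D).2, (dd_eq hσ D).2, ← Complex.ofReal_add] at h1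
      have h2 : dd D A + dd D (A * ρ) = 0 := by exact_mod_cast h1
      linarith
    have hw3 : ∀ A, D.τ (D.art A ((w : 𝓞 D.H) : D.H)) = Real.exp (-2 * dd D A) ^ 2 := by
      intro A
      rw [hw1, hρinv, hdρ, ← Real.exp_nat_mul]
      congr 1
      push_cast
      ring
    refine ⟨family_of hσ D w _ (fun A => ?_) hw2, ?_⟩
    · rw [hw3, exp_dd hσ]
      push_cast
      rfl
    · rintro ⟨x, hx⟩
      rw [exp_dd hσ] at hx
      have hx1 : D.τ x = Real.exp (-2 * dd D 1) := Complex.ofReal_injective hx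
      have hx2 : x ^ 2 = ((w : 𝓞 D.H) : D.H) := by
        refine tau_inj hσ D ?_
        have h1 := hw3 1
        rw [art_one hσ] at h1
        rw [map_pow, hx1, h1]
      have hx0 : x ≠ 0 := by
        rintro rfl
        rw [map_zero] at hx1
        exact (Real.exp_pos _).ne hx1
      have hi : IsIntegral ℤ x := by
        refine IsIntegral.of_pow two_pos ?_
        rw [hx2]
        exact (w : 𝓞 D.H).isIntegral_coe
      have hi2 : IsIntegral ℤ x⁻¹ := by
        refine IsIntegral.of_pow two_pos ?_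
        rw [inv_pow, hx2]
        exact unit_inv_integral w
      obtain ⟨U, hU⟩ := mk_unit hx0 hi hi2
      have hsq : ∀ A, (D.τ (D.art A x)) ^ 2 = Real.exp (-2 * dd D A) ^ 2 := by
        intro A
        rw [← map_pow, ← map_pow, hx2, hw3]
      have hA : ∀ A, ((D.τ (D.art A ((U : 𝓞 D.H) : D.H)) : ℝ) : ℂ) =
          (if D.τ (D.art A x) = Real.exp (-2 * dd D A) then (1 : ℂ) else -1) * starkNumber D A := by
        intro A
        rw [hU, exp_dd hσ]
        rcases sq_eq_sq_iff_eq_or_eq_neg.1 (hsq A) with h1 | h1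
        · rw [if_pos h1, one_mul, h1]
        · have h2 : ¬ D.τ (D.art A x) = Real.exp (-2 * dd D A) := by
            rw [h1]
            intro h3
            have := Real.exp_pos (-2 * dd D A)
            linarith
          rw [if_neg h2, h1]
          push_cast
          ring
      have hB : ∀ φ : D.H →+* ℂ, φ.comp (algebraMap K D.H) = Complex.ofRealHom.comp σ₂ →
          ‖φ ((U : 𝓞 D.H) : D.H)‖ = 1 := by
        intro φ hφ
        have h1 := hw2 φ hφ
        rw [hU]
        rw [← hx2, map_pow, norm_pow] at h1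
        exact (pow_eq_one_iff_of_nonneg (norm_nonneg _) two_ne_zero).1 h1
      refine ⟨fun A => if D.τ (D.art A x) = Real.exp (-2 * dd D A) then 1 else -1, fun A => ?_,
        family_of hσ D U _ hA hB⟩
      by_cases h1 : D.τ (D.art A x) = Real.exp (-2 * dd D A)
      · exact Or.inl (if_pos h1)
      · exact Or.inr (if_neg h1)
  · obtain ⟨ε, hε⟩ := Pool.Agent.Results.MP_1ef7cf_nt.LargerModuli.result K hK σ₁ σ₂ hσ D h
    exact ⟨ε, hε.eq, hε.galois, hε.circle⟩

end Pool.Agent.Results.MP_343f43_nt.LargerModuli
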