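import Pool.Agent.X287.STQ

/-!
# Stark's conjecture over real quadratic fields: the numbers `exp(-2ζ'(0, A))` as limits, and a criterion for the polynomial
# `∏ (x - exp(-2ζ'(0, A)))` to have coefficients in `O_K` and conjugate roots on the unit circle

`K` is a real quadratic field with real embeddings `σ₁ ≠ σ₂`, `𝔪 ≠ (0), (1)` an ideal, `G` a finite abelian group and `c` a map
from the ideals to `G`, multiplicative on the ideals prime to `𝔪`, trivial on the ideals `(x)` with `x ≡ 1` modulo `𝔪` and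
`σ₂(x) > 0`: for example the ray class group modulo `𝔪∞₂`, and `c(𝔞)` the class of `𝔞`. Let
`ζ(s, A) = ∑_{c(𝔞) = A} N𝔞^{-s}` (`𝔞` prime to `𝔪`), continued, and `X_A = exp(-2ζ'(0, A))`. For a fixed `γ > π/2`
let

`𝒮(T) = ∑_{v ∤ 𝔪} ∑_{k ≥ 1} exp(iγ k log Nv / T) / (k Γ(1 + k log Nv / T)) c(v)^k ∈ ℂ[G]`, `D_A(T) = T e^{-Λ(γ)} [exp 𝒮(T)]_A`

with the exponential of the group ring and the coefficient `[·]_A` of `A`. UNCONDITIONALLY:

1. The continuations exist, `ζ(0, A) = 0`, `ζ'(0, A)` is real, `exp(-2 D_A(T)) = X_A + O(1/T)`, `∏_A X_A = 1`, and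
   `X_{Aρ} = X_A⁻¹` for the class `ρ` of `(x)`, `x ≡ 1` modulo `𝔪`, `σ₂(x) < 0`.
2. If there are units `ε_A` of a Galois extension `H/K` with group `G` (`art : G ≅ Gal(H/K)`) as predicted by Stark (Q1: 1. `ε_A = X_A`
   in a real embedding above `σ₁`; 2. `art(B) ε_A = ε_{AB}`; 3. absolute value `1` in all the embeddings above `σ₂`) then
   (P) there is a monic polynomial `Q` over `O_K` with `σ₁(Q) = ∏_A (x - X_A)` such that all the complex roots of `σ₂(Q)`
   have absolute value `1`.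
3. (P) holds if and only if for all `n ≥ 1` and `0 ≤ j ≤ |G|` the coefficient of `x^j` in the polynomial
   `∏_A (x - exp(-2n D_A(T)))` comes, for arbitrarily large `T`, arbitrarily close to the discrete set
   `{σ₁(α) : α ∈ O_K, |σ₂(α)| ≤ binomial(|G|, j)}`; and if and only if for all `n`, `j` it is `σ₁(α) + O(1/T)` with an `α` of this kind.

So the algebraicity predicted by Stark (the `X_A` are algebraic units of degree `≤ |G|` over `K` whose conjugates above `σ₂` lie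
on the unit circle) is equivalent to a statement on absolutely convergent sums over the prime ideals of `K`, which can be
tested with finite precision: for bounded `j` and given precision the discrete set is explicit.

Ingredients: Hecke's continuation with gamma factors (`Pool.Agent.Y773`, `Y772`), the rotated law at `s = 0` (`Pool.Agent.X287.CR`,
`ST`), resultants for the polynomials of the `n`-th powers of the roots, Galois descent.
-/

set_option autoImplicit false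
set_option linter.unusedSectionVars false

open Filter Topology Asymptotics
open IsDedekindDomain NumberField Polynomial

namespace Pool.Agent.Results.MP_343f43_nt.MinimalPolynomialCriterion

section defs
variable {K : Type} [Field K] [NumberField K] {G : Type} [CommGroup G] [Fintype G]

/-- `c` is multiplicative on the ideals prime to `𝔪`, and trivial on the ideals `(x)` with `x ≡ 1` modulo `𝔪` and
`σ₂(x) > 0`. -/
structure IsClassMap (𝔪 : Ideal (𝓞 K)) (σ₂ : K →+* ℝ) (c : Ideal (𝓞 K) → G) : Prop where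
  mul : ∀ I J : Ideal (𝓞 K), IsCoprime I 𝔪 → IsCoprime J 𝔪 → c (I * J) = c I * c J
  ray : ∀ x : 𝓞 K, x ≠ 0 → x - 1 ∈ 𝔪 → 0 < σ₂ (x : K) → c (Ideal.span {x}) = 1

/-- `Z A` is the partial zeta function of `A`, continued to `ℂ - {1}` and meromorphic at `1`. -/
structure IsPartialZeta (𝔪 : Ideal (𝓞 K)) (c : Ideal (𝓞 K) → G) (Z : G → ℂ → ℂ) : Prop where
  sum : ∀ (A : G) (s : ℂ), 1 < s.re → HasSum (fun I : {I : Ideal (𝓞 K) // IsCoprime I 𝔪 ∧ c I = A} =>
    ((Ideal.absNorm I.1 : ℕ) : ℂ) ^ (-s)) (Z A s)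
  analytic : ∀ (A : G) (s : ℂ), s ≠ 1 → AnalyticAt ℂ (Z A) s
  mero : ∀ A : G, MeromorphicAt (Z A) 1

/-- The primes which do not divide `𝔪`. -/
abbrev Places (𝔪 : Ideal (𝓞 K)) : Type := {v : HeightOneSpectrum (𝓞 K) // IsCoprime v.asIdeal 𝔪}

open Classical in
/-- The term of the prime `v = x.1` and the exponent `k = x.2 + 1` in the coefficient of `A` in `𝒮(T)`. -/
noncomputable def term (𝔪 : Ideal (𝓞 K)) (c : Ideal (𝓞 K) → G) (γ T : ℝ) (A : G) (x : Places 𝔪 × ℕ) : ℂ :=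
  if c (x.1.1.asIdeal ^ (x.2 + 1)) = A then
    Complex.exp ((γ * ((x.2 + 1) * Real.log (Ideal.absNorm x.1.1.asIdeal : ℕ) / T) : ℝ) * Complex.I) /
    (((x.2 + 1) * Real.Gamma (1 + (x.2 + 1) * Real.log (Ideal.absNorm x.1.1.asIdeal : ℕ) / T) : ℝ) : ℂ)
  else 0

/-- The coefficient of `A` in `𝒮(T)`. -/
noncomputable def frobSum (𝔪 : Ideal (𝓞 K)) (c : Ideal (𝓞 K) → G) (γ T : ℝ) (A : G) : ℂ :=
  ∑' x, term 𝔪 c γ T A x

open Classical in
/-- The coefficient of `g` in the power `f^n` of an element `f` of the group ring `ℂ[G]`. -/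
noncomputable def power (f : G → ℂ) : ℕ → G → ℂ
  | 0 => fun g => if g = 1 then 1 else 0
  | n + 1 => fun g => ∑ h, f h * power f n (h⁻¹ * g)

/-- The coefficient of `g` in the exponential of an element `f` of the group ring `ℂ[G]`. -/
noncomputable def expCoeff (f : G → ℂ) (g : G) : ℂ := ∑' n : ℕ, power f n g / n.factorial

/-- The constant `Λ(γ) = ∫_0^∞ (e^{-t} - e^{iγt} / Γ(1 + t)) dt / t`. -/
noncomputable def Lambda (γ : ℝ) : ℂ := ∫ t in Set.Ioi (0 : ℝ),
  (Complex.exp (-(t : ℂ)) - Complex.exp ((γ * t : ℝ) * Complex.I) * ((Real.Gamma (1 + t))⁻¹ : ℝ)) / t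

/-- `D_A(T) = T e^(-Λ) [exp 𝒮(T)]_A`. -/
noncomputable def approx (𝔪 : Ideal (𝓞 K)) (c : Ideal (𝓞 K) → G) (γ T : ℝ) (A : G) : ℂ :=
  T * Complex.exp (-Lambda γ) * expCoeff (frobSum 𝔪 c γ T) A

/-- The number `X_A = exp(-2ζ'(0, A))`. -/
noncomputable def starkNumber (Z : G → ℂ → ℂ) (A : G) : ℂ := Complex.exp (-2 * deriv (Z A) 0)

/-- The homomorphism `σ` from `O_K` to the complex numbers. -/
noncomputable def toComplex (σ : K →+* ℝ) : 𝓞 K →+* ℂ :=
  (Complex.ofRealHom.comp σ).comp (algebraMap (𝓞 K) K)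

/-- (P): a monic polynomial over `O_K` is mapped by `σ₁` to `∏ (x - X_A)` and the roots of its image under `σ₂` have
absolute value `1`. -/
def HasStarkPolynomial (σ₁ σ₂ : K →+* ℝ) (x : G → ℂ) : Prop :=
  ∃ Q : (𝓞 K)[X], Q.Monic ∧ Q.map (toComplex σ₁) = ∏ A, (X - C (x A)) ∧
    ∀ y : ℂ, (Q.map (toComplex σ₂)).eval y = 0 → ‖y‖ = 1

/-- The properties 1, 2, 3 of Q1 for units `ε A` of `H`, where `τ` is a real embedding of `H` above `σ₁`. -/
structure IsStarkFamily {H : Type} [Field H] [NumberField H] [Algebra K H] (σ₁ σ₂ : K →+* ℝ)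
    (art : G ≃* Gal(H/K)) (τ : H →+* ℝ) (x : G → ℂ) (ε : G → (𝓞 H)ˣ) : Prop where
  above : τ.comp (algebraMap K H) = σ₁
  eq : ∀ A, ((τ ((ε A : 𝓞 H) : H) : ℝ) : ℂ) = x A
  galois : ∀ A B, art B ((ε A : 𝓞 H) : H) = ((ε (A * B) : 𝓞 H) : H)
  circle : ∀ φ : H →+* ℂ, φ.comp (algebraMap K H) = Complex.ofRealHom.comp σ₂ →
    ∀ A, ‖φ ((ε A : 𝓞 H) : H)‖ = 1

/-- The coefficient of `x^j` in `∏ (x - exp(-2n D_A(T)))`. -/
noncomputable def coefficient (𝔪 : Ideal (𝓞 K)) (c : Ideal (𝓞 K) → G) (γ T : ℝ) (n j : ℕ) : ℂ :=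
  (∏ A, (X - C (Complex.exp (-2 * n * approx 𝔪 c γ T A)))).coeff j

end defs

section aux
open Pool.Agent.X287.ST

variable {K : Type} [Field K] [NumberField K] {G : Type} [CommGroup G] [Fintype G]

theorem power_eq (f : G → ℂ) (n : ℕ) : power f n = pw f n := by
  induction n with
  | zero => rfl
  | succ n ih =>
    funext g
    show ∑ h, f h * power f n (h⁻¹ * g) = ∑ h, f h * pw f n (h⁻¹ * g)
    rw [ih]

theorem expCoeff_eq (f : G → ℂ) (g : G) : expCoeff f g = gexp f g := by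
  unfold expCoeff gexp
  exact tsum_congr fun n => by rw [power_eq]

theorem term_eq (𝔪 : Ideal (𝓞 K)) (c : Ideal (𝓞 K) → G) (γ T : ℝ) (g : G) (x : Places 𝔪 × ℕ) :
    term 𝔪 c γ T g x = Pool.Agent.X287.ST.term 𝔪 c 0 γ T g x := by
  unfold term Pool.Agent.X287.ST.term
  split_ifs
  · rw [neg_zero, Complex.cpow_zero, one_pow, one_mul]
  · rfl

theorem frobSum_eq (𝔪 : Ideal (𝓞 K)) (c : Ideal (𝓞 K) → G) (γ T : ℝ) :
    frobSum 𝔪 c γ T = Sg 𝔪 c 0 γ T := by
  funext g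
  exact tsum_congr fun x => term_eq 𝔪 c γ T g x

theorem approx_eq (𝔪 : Ideal (𝓞 K)) (c : Ideal (𝓞 K) → G) (γ T : ℝ) (g : G) :
    approx 𝔪 c γ T g = sc (Pool.Agent.W187.UR.Lam γ) (1 : ℤ) T * gexp (Sg 𝔪 c 0 γ T) g := by
  unfold approx sc
  rw [zpow_one, frobSum_eq, expCoeff_eq]
  rfl

end aux

open Pool.Agent.X287.ST in
/-- **Stark's conjecture over real quadratic fields and sums over prime ideals.** -/
theorem result (K : Type) [Field K] [NumberField K] (hK : Module.finrank ℚ K = 2) (σ₁ σ₂ : K →+* ℝ)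
    (hσ : σ₁ ≠ σ₂) (𝔪 : Ideal (𝓞 K)) (h0 : 𝔪 ≠ ⊥) (h1 : 𝔪 ≠ ⊤) (G : Type) [CommGroup G] [Fintype G]
    (c : Ideal (𝓞 K) → G) (hc : IsClassMap 𝔪 σ₂ c) (γ : ℝ) (hγ : Real.pi / 2 < γ) :
    (∃ Z : G → ℂ → ℂ, IsPartialZeta 𝔪 c Z) ∧
    (∀ (T : ℝ) (A : G), 0 < T → Summable fun x => ‖term 𝔪 c γ T A x‖) ∧
    ∀ Z : G → ℂ → ℂ, IsPartialZeta 𝔪 c Z →
      -- 1. the numbers `X_A`
      ((∀ A, Z A 0 = 0 ∧ (deriv (Z A) 0).im = 0 ∧
          (fun T : ℝ => Complex.exp (-2 * approx 𝔪 c γ T A) - starkNumber Z A) =O[atTop] (fun T : ℝ => 1 / T)) ∧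
        ∏ A, starkNumber Z A = 1 ∧
        ∀ x : 𝓞 K, x ≠ 0 → x - 1 ∈ 𝔪 → σ₂ (x : K) < 0 →
          ∀ A, starkNumber Z A * starkNumber Z (A * c (Ideal.span {x})) = 1) ∧
      -- 2. Stark's conjecture implies (P)
      (∀ (H : Type) [Field H] [NumberField H] [Algebra K H] [IsGalois K H] (art : G ≃* Gal(H/K)) (τ : H →+* ℝ)
        (ε : G → (𝓞 H)ˣ), IsStarkFamily σ₁ σ₂ art τ (starkNumber Z) ε → HasStarkPolynomial σ₁ σ₂ (starkNumber Z)) ∧
      -- 3. the criterion
      (HasStarkPolynomial σ₁ σ₂ (starkNumber Z) ↔ ∀ n : ℕ, 1 ≤ n → ∀ j ≤ Fintype.card G, ∀ δ > 0, ∀ T₀ : ℝ,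
        ∃ T ≥ T₀, ∃ α : 𝓞 K, |σ₂ (α : K)| ≤ (Fintype.card G).choose j ∧
          ‖coefficient 𝔪 c γ T n j - (σ₁ (α : K) : ℂ)‖ < δ) ∧
      (HasStarkPolynomial σ₁ σ₂ (starkNumber Z) ↔ ∀ n : ℕ, 1 ≤ n → ∀ j ≤ Fintype.card G,
        ∃ α : 𝓞 K, |σ₂ (α : K)| ≤ (Fintype.card G).choose j ∧
          (fun T : ℝ => coefficient 𝔪 c γ T n j - (σ₁ (α : K) : ℂ)) =O[atTop] (fun T : ℝ => 1 / T)) := by
  classical
  have hcR : IsClassMapR 𝔪 {σ₁} c := ⟨hc.mul, fun x hx0 hx1 hx2 => hc.ray x hx0 hx1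
    (hx2 σ₂ (by rw [Finset.mem_singleton]; exact hσ.symm))⟩
  have hr : 1 ≤ ({σ₁} : Finset (K →+* ℝ)).card + InfinitePlace.nrComplexPlaces K := by
    rw [Finset.card_singleton]
    omega
  have hr2 : 2 ≤ ({σ₁, σ₂} : Finset (K →+* ℝ)).card + InfinitePlace.nrComplexPlaces K := by
    rw [Finset.card_pair hσ]
    omega
  refine ⟨?_, fun T A hT => ?_, fun Z hZ => ?_⟩
  · obtain ⟨Z, hZ, -⟩ := exists_PZ_ord h1 h0 hcR
    exact ⟨Z, hZ.sum, hZ.an, hZ.mer⟩
  · refine (term_summable hcR.toClass (s₀ := 0) (by simp) γ hT A).congr fun x => ?_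
    rw [term_eq]
  have hZ' : IsPZ 𝔪 c Z := ⟨hZ.sum, hZ.analytic, hZ.mero⟩
  have hone := fun A => one_place h1 h0 hcR hr hZ' hγ A
  have hD : ∀ A, (fun T : ℝ => approx 𝔪 c γ T A - deriv (Z A) 0) =O[atTop] (fun T : ℝ => 1 / T) := by
    intro A
    refine (hone A).2.2.congr_left fun T => ?_
    rw [approx_eq]
  have hX : ∀ (n : ℕ) (A : G), (fun T : ℝ => Complex.exp (-2 * n * approx 𝔪 c γ T A) -
      starkNumber Z A ^ n) =O[atTop] (fun T : ℝ => 1 / T) := by
    intro n A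
    have h2 := comp_rate (f := fun z : ℂ => Complex.exp (-2 * n * z)) (b := deriv (Z A) 0)
      (by fun_prop) (hD A)
    refine h2.congr_left fun T => ?_
    unfold starkNumber
    rw [← Complex.exp_nat_mul, show (n : ℂ) * (-2 * deriv (Z A) 0) = -2 * n * deriv (Z A) 0 by ring]
  have hX1 : ∀ A, (fun T : ℝ => Complex.exp (-2 * approx 𝔪 c γ T A) - starkNumber Z A) =O[atTop]
      (fun T : ℝ => 1 / T) := by
    intro A
    refine (hX 1 A).congr_left fun T => ?_
    rw [Nat.cast_one, mul_one, pow_one]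
  -- the product
  have hsum : ∑ A, deriv (Z A) 0 = 0 := by
    have h2 := push_deriv (R' := {σ₁, σ₂}) h1 h0 hcR.toClass hr2 hZ' (G' := Unit) 1
      (fun x _ _ _ => rfl) ()
    have h3 : Finset.univ.filter (fun A : G => (1 : G →* Unit) A = ()) = Finset.univ := by
      ext A
      simp
    rwa [h3] at h2
  have hprod : ∏ A, starkNumber Z A = 1 := by
    unfold starkNumber
    rw [← Complex.exp_sum, ← Finset.mul_sum, hsum, mul_zero, Complex.exp_zero]
  have hsgn : ∀ x : 𝓞 K, x ≠ 0 → x - 1 ∈ 𝔪 → σ₂ (x : K) < 0 →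
      ∀ A, starkNumber Z A * starkNumber Z (A * c (Ideal.span {x})) = 1 := by
    intro x hx0 hx1 hx2 A
    set ρ : G := c (Ideal.span {x}) with hρ
    have hcop : ∀ y : 𝓞 K, y - 1 ∈ 𝔪 → IsCoprime (Ideal.span {y}) 𝔪 := fun y hy => cop_span hy
    have hmul1 : ∀ y : 𝓞 K, y - 1 ∈ 𝔪 → y * x - 1 ∈ 𝔪 := by
      intro y hy
      have e : y * x - 1 = x * (y - 1) + (x - 1) := by ring
      rw [e]
      exact 𝔪.add_mem (𝔪.mul_mem_left x hy) hx1
    have hneg : ∀ y : 𝓞 K, y ≠ 0 → y - 1 ∈ 𝔪 → σ₂ (y : K) < 0 → c (Ideal.span {y}) * ρ = 1 := by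
      intro y hy0 hy1 hy2
      rw [hρ, ← hc.mul _ _ (hcop y hy1) (hcop x hx1), Ideal.span_singleton_mul_span_singleton]
      refine hc.ray _ (mul_ne_zero hy0 hx0) (hmul1 y hy1) ?_
      have e : (((y * x : 𝓞 K)) : K) = (y : K) * (x : K) := rfl
      rw [e, map_mul]
      exact mul_pos_of_neg_of_neg hy2 hx2
    have hρ2 : ρ * ρ = 1 := hneg x hx0 hx1 hx2
    have hρinv : ρ⁻¹ = ρ := by
      rw [inv_eq_iff_mul_eq_one]
      exact hρ2
    let N : Subgroup G := Subgroup.zpowers ρ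
    have hmemN : ∀ g : G, g ∈ N ↔ g = 1 ∨ g = ρ := by
      intro g
      constructor
      · intro hg
        obtain ⟨k, rfl⟩ := Subgroup.mem_zpowers_iff.1 hg
        rcases Int.even_or_odd k with ⟨m, hm⟩ | ⟨m, hm⟩
        · left
          rw [hm, ← two_mul, zpow_mul, zpow_two, hρ2, one_zpow]
        · right
          rw [hm, zpow_add, zpow_mul, zpow_two, hρ2, one_zpow, one_mul, zpow_one]
      · rintro (rfl | rfl)
        · exact N.one_mem
        · exact Subgroup.mem_zpowers ρ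
    have h2 := push_deriv (R' := {σ₁, σ₂}) h1 h0 hcR.toClass hr2 hZ' (G' := G ⧸ N)
      (QuotientGroup.mk' N) (fun y hy0 hy1 _ => by
        rw [QuotientGroup.mk'_apply, QuotientGroup.eq_one_iff, hmemN]
        have hne : σ₂ (y : K) ≠ 0 := by
          rw [_root_.map_ne_zero]
          simpa using hy0
        rcases lt_or_gt_of_ne hne with h | h
        · right
          have h3 := hneg y hy0 hy1 h
          rw [mul_eq_one_iff_eq_inv, hρinv] at h3
          exact h3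
        · left
          exact hc.ray y hy0 hy1 h) (QuotientGroup.mk' N A)
    have h3 : ∀ g : G, QuotientGroup.mk' N g = QuotientGroup.mk' N A ↔ g = A ∨ g = A * ρ := by
      intro g
      rw [QuotientGroup.mk'_apply, QuotientGroup.mk'_apply, QuotientGroup.eq, hmemN]
      constructor
      · rintro (h | h)
        · left
          rw [inv_mul_eq_one] at h
          exact h
        · right
          rw [inv_mul_eq_iff_eq_mul] at h
          rw [h, mul_assoc, hρ2, mul_one]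
      · rintro (rfl | rfl)
        · left
          exact inv_mul_cancel _
        · right
          rw [mul_inv_rev, inv_mul_cancel_right, hρinv]
    have h4 : deriv (Z A) 0 + deriv (Z (A * ρ)) 0 = 0 := by
      by_cases hA : A = A * ρ
      · have h5 : Finset.univ.filter (fun g => QuotientGroup.mk' N g = QuotientGroup.mk' N A) = {A} := by
          ext g
          rw [Finset.mem_filter, h3, ← hA, Finset.mem_singleton]
          simp
        rw [h5, Finset.sum_singleton] at h2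
        rw [← hA, h2, add_zero]
      · have h5 : Finset.univ.filter (fun g => QuotientGroup.mk' N g = QuotientGroup.mk' N A) =
            {A, A * ρ} := by
          ext g
          rw [Finset.mem_filter, h3, Finset.mem_insert, Finset.mem_singleton]
          simp
        rw [h5, Finset.sum_pair hA] at h2
        exact h2
    unfold starkNumber
    rw [← Complex.exp_add, ← mul_add, h4, mul_zero, Complex.exp_zero]
  -- the coefficients
  have hcoef : ∀ n j : ℕ, (fun T : ℝ => coefficient 𝔪 c γ T n j -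
      (∏ A, (X - C (starkNumber Z A ^ n))).coeff j) =O[atTop] (fun T : ℝ => 1 / T) := fun n j =>
    coeff_rate Finset.univ (fun T A => Complex.exp (-2 * n * approx 𝔪 c γ T A))
      (fun A => starkNumber Z A ^ n) (hX n) j
  have h0T : Tendsto (fun T : ℝ => 1 / T) atTop (𝓝 (0 : ℝ)) :=
    tendsto_const_nhds.div_atTop tendsto_id
  have htoC : ∀ σ : K →+* ℝ, toComplex σ = toC σ := fun _ => rfl
  have hPiff : HasStarkPolynomial σ₁ σ₂ (starkNumber Z) ↔ ∀ n : ℕ, 1 ≤ n → ∀ j ≤ Fintype.card G,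
      ∃ α : 𝓞 K, ‖toC σ₂ α‖ ≤ (Fintype.card G).choose j ∧
        toC σ₁ α = (∏ A, (X - C (starkNumber Z A ^ n))).coeff j :=
    circle_iff (toC σ₁) (toC σ₂) (toC_inj σ₁) (starkNumber Z) hprod
  have hPrate : HasStarkPolynomial σ₁ σ₂ (starkNumber Z) → ∀ n : ℕ, 1 ≤ n → ∀ j ≤ Fintype.card G,
      ∃ α : 𝓞 K, |σ₂ (α : K)| ≤ (Fintype.card G).choose j ∧
        (fun T : ℝ => coefficient 𝔪 c γ T n j - (σ₁ (α : K) : ℂ)) =O[atTop] (fun T : ℝ => 1 / T) := by
    intro h n hn j hj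
    obtain ⟨α, hα1, hα2⟩ := hPiff.1 h n hn j hj
    refine ⟨α, by rw [← norm_toC]; exact hα1, ?_⟩
    have h2 : (σ₁ (α : K) : ℂ) = (∏ A, (X - C (starkNumber Z A ^ n))).coeff j := by
      rw [← hα2]
      rfl
    rw [h2]
    exact hcoef n j
  have hrate_app : (∀ n : ℕ, 1 ≤ n → ∀ j ≤ Fintype.card G,
      ∃ α : 𝓞 K, |σ₂ (α : K)| ≤ (Fintype.card G).choose j ∧
        (fun T : ℝ => coefficient 𝔪 c γ T n j - (σ₁ (α : K) : ℂ)) =O[atTop] (fun T : ℝ => 1 / T)) →
      ∀ n : ℕ, 1 ≤ n → ∀ j ≤ Fintype.card G, ∀ δ > 0, ∀ T₀ : ℝ,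
        ∃ T ≥ T₀, ∃ α : 𝓞 K, |σ₂ (α : K)| ≤ (Fintype.card G).choose j ∧
          ‖coefficient 𝔪 c γ T n j - (σ₁ (α : K) : ℂ)‖ < δ := by
    intro h n hn j hj δ hδ T₀
    obtain ⟨α, hα1, hα2⟩ := h n hn j hj
    have h4 := (hα2.trans_tendsto h0T).norm
    rw [norm_zero] at h4
    obtain ⟨T, hT1, hT2⟩ := ((h4.eventually_lt_const hδ).and (eventually_ge_atTop T₀)).exists
    exact ⟨T, hT2, α, hα1, hT1⟩
  have happ_P : (∀ n : ℕ, 1 ≤ n → ∀ j ≤ Fintype.card G, ∀ δ > 0, ∀ T₀ : ℝ,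
        ∃ T ≥ T₀, ∃ α : 𝓞 K, |σ₂ (α : K)| ≤ (Fintype.card G).choose j ∧
          ‖coefficient 𝔪 c γ T n j - (σ₁ (α : K) : ℂ)‖ < δ) → HasStarkPolynomial σ₁ σ₂ (starkNumber Z) := by
    intro h
    rw [hPiff]
    intro n hn j hj
    set E := (∏ A, (X - C (starkNumber Z A ^ n))).coeff j with hE
    obtain ⟨α, hα1, hα2⟩ := closed_of_finite (toC σ₁)
      {a : 𝓞 K | |σ₂ (a : K)| ≤ (Fintype.card G).choose j}
      (fun M => quad_finite hK hσ _ M) (E := E) (fun δ hδ => by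
        have h4 := ((hcoef n j).trans_tendsto h0T).norm
        rw [norm_zero] at h4
        obtain ⟨T₀, hT₀⟩ := eventually_atTop.1 (h4.eventually_lt_const (by positivity : (0 : ℝ) < δ / 2))
        obtain ⟨T, hT, α, hα1, hα2⟩ := h n hn j hj (δ / 2) (by positivity) T₀
        refine ⟨α, hα1, ?_⟩
        have h5 : toC σ₁ α = (σ₁ (α : K) : ℂ) := rfl
        have h6 : E - toC σ₁ α = (coefficient 𝔪 c γ T n j - (σ₁ (α : K) : ℂ)) -
            (coefficient 𝔪 c γ T n j - E) := by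
          rw [h5]
          ring
        rw [h6]
        calc _ ≤ ‖coefficient 𝔪 c γ T n j - (σ₁ (α : K) : ℂ)‖ + ‖coefficient 𝔪 c γ T n j - E‖ :=
              norm_sub_le _ _
          _ < δ := by
            have := hT₀ T hT
            linarith)
    refine ⟨α, ?_, hα2⟩
    rw [norm_toC]
    exact hα1
  refine ⟨⟨fun A => ⟨(hone A).1, (hone A).2.1, hX1 A⟩, hprod, hsgn⟩, ?_,
    ⟨fun h => hrate_app (hPrate h), happ_P⟩, ⟨hPrate, fun h => happ_P (hrate_app h)⟩⟩
  -- Stark's conjecture implies (P)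
  intro H _ _ _ _ art τ ε hε
  obtain ⟨Q, hQm, hQ⟩ := descent art (fun A => (ε A : 𝓞 H)) hε.galois
  have hext : ∀ (σ : K →+* ℝ) (φ : H →+* ℂ), φ.comp (algebraMap K H) = Complex.ofRealHom.comp σ →
      Q.map (toComplex σ) = ∏ A, (X - C (φ ((ε A : 𝓞 H) : H))) := by
    intro σ φ hφ
    have h2 := congrArg (Polynomial.map φ) hQ
    rw [Polynomial.map_map, Polynomial.map_prod] at h2
    have h3 : φ.comp ((algebraMap K H).comp (algebraMap (𝓞 K) K)) = toComplex σ := by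
      rw [← RingHom.comp_assoc, hφ]
      rfl
    rw [h3] at h2
    rw [h2]
    refine Finset.prod_congr rfl fun A _ => ?_
    rw [Polynomial.map_sub, Polynomial.map_X, Polynomial.map_C]
  refine ⟨Q, hQm, ?_, fun y hy => ?_⟩
  · have h2 := hext σ₁ (Complex.ofRealHom.comp τ) (by rw [RingHom.comp_assoc, hε.above])
    rw [h2]
    refine Finset.prod_congr rfl fun A _ => ?_
    rw [← hε.eq A]
    rfl
  · -- an embedding above `σ₂`
    let _ : Algebra K ℂ := (Complex.ofRealHom.comp σ₂).toAlgebra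
    have _ : Algebra.IsAlgebraic K H := Algebra.IsAlgebraic.of_finite K H
    let φ : H →ₐ[K] ℂ := IsAlgClosed.lift
    have hφ : (φ : H →+* ℂ).comp (algebraMap K H) = Complex.ofRealHom.comp σ₂ := by
      ext a
      exact φ.commutes a
    have h2 := hext σ₂ φ hφ
    rw [h2, eval_prod, Finset.prod_eq_zero_iff] at hy
    obtain ⟨A, -, hA⟩ := hy
    rw [eval_sub, eval_X, eval_C, sub_eq_zero] at hA
    rw [hA]
    exact hε.circle φ hφ A

end Pool.Agent.Results.MP_343f43_nt.MinimalPolynomialCriterion
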